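import Pool.Agent.X222.RW.Cells

set_option autoImplicit false

/-!
# Triple systems over sparse sets decided by branching programs of bounded width

Let `Q` be a finite set with at least two elements, and let `Q^n` carry the product of `n` arbitrary
quasigroup operations on `Q`. Let `F ⊆ Q^n × Q^n` be decided by a nondeterministic branching program
of bounded width (in boundedly many passes, or of linear length and reading the coordinates in any
order). The triple systems whose edges are of the form `{α x, β y, γ (x y)}` with `(x, y) ∈ F` have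
`e` edges with a union of size at most `e + 3` as soon as they have `δ |F|` edges, unless `F` is
exponentially small, resp. has at most `|Q|^(2 n) / exp (n ^ c)` elements.
-/

namespace Pool.Agent.Results.MP_c82047_co.BoundedWidthSparse

open Finset Pool.Agent.X222.RW

/-- A quasigroup operation: all left and right translations are bijective. -/
def IsQuasigroup {A : Type} (mul : A → A → A) : Prop :=
  (∀ a, Function.Bijective (mul a)) ∧ (∀ b, Function.Bijective (fun a => mul a b))

/-- `F ⊆ (Q^n)^2` is decided by a nondeterministic branching program of width `w` which reads the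
pairs `(x i, y i)` in `q` passes: it has `q n` steps, and in the step `t` it reads the pair number
`t % n` in a fixed order `σ` of the `n` positions. -/
def InPasses {Q : Type} {n : ℕ} (w q : ℕ) (F : Finset ((Fin n → Q) × (Fin n → Q))) : Prop :=
  ∃ (M : Program (Q × Q) n w) (σ : Fin n ≃ Fin n), M.levels = q * n ∧
    (∀ t < q * n, ∀ a, (σ (M.query t a) : ℕ) = t % n) ∧
    ∀ x y, (x, y) ∈ F ↔ M.Accepts fun i => (x i, y i)

/-- `F ⊆ (Q^n)^2` is decided by a nondeterministic branching program of width `w` with at most `q n`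
steps; each node reads a pair `(x i, y i)` (or only one of `x i` and `y i`), `i` arbitrary. -/
def InSteps {Q : Type} {n : ℕ} (w q : ℕ) (F : Finset ((Fin n → Q) × (Fin n → Q))) : Prop :=
  ∃ M : Program (Q × Q) n w, M.levels ≤ q * n ∧
    ∀ x y, (x, y) ∈ F ↔ M.Accepts fun i => (x i, y i)

/-- `F` is of one of the two kinds, and `n` is large in terms of `t`. -/
def Good {Q : Type} {n : ℕ} (w q C t : ℕ) (F : Finset ((Fin n → Q) × (Fin n → Q))) : Prop :=
  (C * t ≤ n ∧ InPasses w q F) ∨ (C * t ^ (2 * w * q) ≤ n ∧ InSteps w q F)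

/-- `E` is a triple system on `V`, every edge of which is `{α x, β y, γ (x y)}` for some
`(x, y) ∈ F`; the product `x y` is taken coordinate by coordinate. -/
def Over {Q V : Type} [DecidableEq V] {n : ℕ} (mul : Fin n → Q → Q → Q)
    (F : Finset ((Fin n → Q) × (Fin n → Q))) (α β γ : (Fin n → Q) → V)
    (E : Finset (Finset V)) : Prop :=
  ∀ f ∈ E, f.card = 3 ∧ ∃ x y, (x, y) ∈ F ∧ f = {α x, β y, γ (fun i => mul i (x i) (y i))}

/-- the word of the pairs of coordinates -/
def zip (Q : Type) (n : ℕ) : ((Fin n → Q) × (Fin n → Q)) ≃ (Fin n → Q × Q) where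
  toFun p := fun i => (p.1 i, p.2 i)
  invFun f := (fun i => (f i).1, fun i => (f i).2)
  left_inv _ := rfl
  right_inv _ := rfl

theorem mem_zip {Q : Type} {n : ℕ} (F : Finset ((Fin n → Q) × (Fin n → Q))) (f : Fin n → Q × Q) :
    f ∈ F.map (zip Q n).toEmbedding ↔ ((fun i => (f i).1), fun i => (f i).2) ∈ F := by
  constructor
  · intro h
    obtain ⟨p, hp, rfl⟩ := mem_map.1 h
    exact hp
  · intro h
    exact mem_map.2 ⟨_, h, rfl⟩

theorem good_zip {Q : Type} {n w q C t : ℕ} {F : Finset ((Fin n → Q) × (Fin n → Q))}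
    (h : Good w q C t F) :
    (C * t ≤ n ∧ Pool.Agent.X222.RW.InPasses w q (F.map (zip Q n).toEmbedding)) ∨
    (C * t ^ (2 * w * q) ≤ n ∧
      Pool.Agent.X222.RW.InSteps w q (F.map (zip Q n).toEmbedding)) := by
  rcases h with ⟨h1, M, σ, h2, h3, h4⟩ | ⟨h1, M, h2, h4⟩
  · exact Or.inl ⟨h1, M, σ, h2, h3, fun f => (mem_zip F f).trans (h4 _ _)⟩
  · exact Or.inr ⟨h1, M, h2, fun f => (mem_zip F f).trans (h4 _ _)⟩

theorem card_pow (Q : Type) [Fintype Q] (n : ℕ) :
    (Fintype.card (Q × Q) : ℝ) ^ n = (Fintype.card Q : ℝ) ^ (2 * n) := by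
  rw [Fintype.card_prod]
  push_cast
  rw [pow_mul, sq]

/-- **Theorem.** Let `|Q| ≥ 2` and `w, q ≥ 1`.
(1) For all `e ≥ 1` and `δ > 0` there is `C` such that for all `n`, `t`, all quasigroup operations
`mul i` on `Q` and all `F ⊆ (Q^n)^2` which are `Good w q C t`: every triple system over `F` with more
than `δ |F| + |Q|^(2 n) / 2^t` edges has `e` edges with a union of size at most `e + 3`.
(2) For all `j ≥ 1` and `δ > 0` there is `C` such that for all `n`, `t`, every operation `op` on `Q`
and all `F` which are `Good w q C t`: every triple system over `F` (for the product `op` in all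
coordinates) with more than `δ |F| + |Q|^(2 n) / 2^t` edges has `|Q|^(2 j)` edges with a union of
size at most `3 |Q|^j`.
(3) For every `e ≥ 1` there is `C` such that for all `n`, `t` and all quasigroup operations `mul i`:
if `A ⊆ (Q^n)^2` is the union of `T` sets which are `Good w q C t`, and any `e` members of `A` have
together at least `e + 4` rows, columns and symbols, then `|A| ≤ 2 T |Q|^(2 n) / 2^t`. -/
theorem result (Q : Type) [Fintype Q] [DecidableEq Q] (hQ : 2 ≤ Fintype.card Q) (w q : ℕ)
    (hw : 1 ≤ w) (hq : 1 ≤ q) :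
    (∀ e : ℕ, 1 ≤ e → ∀ δ : ℝ, 0 < δ → ∃ C : ℕ, ∀ (n t : ℕ) (mul : Fin n → Q → Q → Q),
      (∀ i, IsQuasigroup (mul i)) →
      ∀ F : Finset ((Fin n → Q) × (Fin n → Q)), Good w q C t F →
      ∀ (V : Type) [DecidableEq V] (α β γ : (Fin n → Q) → V) (E : Finset (Finset V)),
        Over mul F α β γ E →
        δ * F.card + (Fintype.card Q : ℝ) ^ (2 * n) / 2 ^ t < E.card →
        ∃ S ⊆ E, S.card = e ∧ (S.biUnion id).card ≤ e + 3) ∧
    (∀ j : ℕ, 1 ≤ j → ∀ δ : ℝ, 0 < δ → ∃ C : ℕ, ∀ (n t : ℕ) (op : Q → Q → Q)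
      (F : Finset ((Fin n → Q) × (Fin n → Q))), Good w q C t F →
      ∀ (V : Type) [DecidableEq V] (α β γ : (Fin n → Q) → V) (E : Finset (Finset V)),
        Over (fun _ => op) F α β γ E →
        δ * F.card + (Fintype.card Q : ℝ) ^ (2 * n) / 2 ^ t < E.card →
        ∃ S ⊆ E, S.card = Fintype.card Q ^ (2 * j) ∧
          (S.biUnion id).card ≤ 3 * Fintype.card Q ^ j) ∧
    (∀ e : ℕ, 1 ≤ e → ∃ C : ℕ, ∀ (n t T : ℕ) (mul : Fin n → Q → Q → Q),
      (∀ i, IsQuasigroup (mul i)) →
      ∀ (A : Finset ((Fin n → Q) × (Fin n → Q))) (F : Fin T → Finset ((Fin n → Q) × (Fin n → Q))),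
        (∀ i, Good w q C t (F i)) → (∀ p, p ∈ A ↔ ∃ i, p ∈ F i) →
        (∀ B ⊆ A, B.card = e → e + 3 < (B.image fun p => p.1).card + (B.image fun p => p.2).card +
          (B.image fun p => fun i => mul i (p.1 i) (p.2 i)).card) →
        (A.card : ℝ) ≤ 2 * T * ((Fintype.card Q : ℝ) ^ (2 * n) / 2 ^ t)) := by
  classical
  have : Nonempty Q := Fintype.card_pos_iff.1 (by omega)
  -- edges come from members of `F`
  have hOver : ∀ (n : ℕ) (mul : Fin n → Q → Q → Q) (F : Finset ((Fin n → Q) × (Fin n → Q)))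
      (V : Type) [DecidableEq V] (α β γ : (Fin n → Q) → V) (E : Finset (Finset V)),
      Over mul F α β γ E → ∀ f ∈ E, ∃ p ∈ F.map (zip Q n).toEmbedding,
        f = {α (fun i => (p i).1), β (fun i => (p i).2), γ (fun i => mul i (p i).1 (p i).2)} := by
    intro n mul F V _ α β γ E h f hf
    obtain ⟨_, x, y, hxy, hf⟩ := h f hf
    exact ⟨fun i => (x i, y i), (mem_zip F _).2 hxy, hf⟩
  refine ⟨?_, ?_, ?_⟩
  · intro e he δ hδ
    obtain ⟨C, hC⟩ := Cells.quasi_rel hQ hw hq e he δ hδ
    refine ⟨C, fun n t mul hmul F hF V _ α β γ E hE hlt => ?_⟩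
    by_contra hcon
    push Not at hcon
    obtain ⟨A, hAF, hA, hEA⟩ := Cells.triples_rel mul e (e + 3) _ α β γ E
      (hOver n mul F V α β γ E hE) hcon
    have h1 := hC n t mul (fun i => (hmul i).1) (fun i => (hmul i).2) A _ hA (good_zip hF)
    rw [inter_eq_left.2 hAF, card_map, ← hEA, card_pow] at h1
    exact absurd hlt (not_lt.2 h1)
  · intro j hj δ hδ
    obtain ⟨C, hC⟩ := Cells.power_rel (Q := Q) hw hq j hj δ hδ
    refine ⟨C, fun n t op F hF V _ α β γ E hE hlt => ?_⟩
    by_contra hcon
    push Not at hcon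
    obtain ⟨A, hAF, hA, hEA⟩ := Cells.triples_rel (fun _ => op) (Fintype.card Q ^ (2 * j))
      (3 * Fintype.card Q ^ j) _ α β γ E (hOver n (fun _ => op) F V α β γ E hE) hcon
    have h1 := hC n t op A _ hA (good_zip hF)
    rw [inter_eq_left.2 hAF, card_map, ← hEA, card_pow] at h1
    exact absurd hlt (not_lt.2 h1)
  · intro e he
    obtain ⟨C, hC⟩ := Cells.quasi_rel hQ hw hq e he (1 / 2) (by norm_num)
    refine ⟨C, fun n t T mul hmul A F hF hAF hfree => ?_⟩
    have hFree : Cells.Free mul e (e + 3) (A.map (zip Q n).toEmbedding) := by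
      intro B hB hBe R C' S hRCS
      have h1 := hfree (B.map (zip Q n).symm.toEmbedding) (by
        intro p hp
        obtain ⟨b, hb, rfl⟩ := mem_map.1 hp
        exact (mem_zip A b).1 (hB hb)) (by rw [card_map, hBe])
      have hmem : ∀ p ∈ B.map (zip Q n).symm.toEmbedding,
          p.1 ∈ R ∧ p.2 ∈ C' ∧ (fun i => mul i (p.1 i) (p.2 i)) ∈ S := by
        intro p hp
        obtain ⟨b, hb, rfl⟩ := mem_map.1 hp
        exact hRCS b hb
      have a1 : ((B.map (zip Q n).symm.toEmbedding).image fun p => p.1).card ≤ R.card := by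
        refine card_le_card fun z hz => ?_
        obtain ⟨p, hp, rfl⟩ := mem_image.1 hz
        exact (hmem p hp).1
      have a2 : ((B.map (zip Q n).symm.toEmbedding).image fun p => p.2).card ≤ C'.card := by
        refine card_le_card fun z hz => ?_
        obtain ⟨p, hp, rfl⟩ := mem_image.1 hz
        exact (hmem p hp).2.1
      have a3 : ((B.map (zip Q n).symm.toEmbedding).image
          fun p => fun i => mul i (p.1 i) (p.2 i)).card ≤ S.card := by
        refine card_le_card fun z hz => ?_
        obtain ⟨p, hp, rfl⟩ := mem_image.1 hz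
        exact (hmem p hp).2.2
      omega
    have h2 := union_of_relative (t := t) (A.map (zip Q n).toEmbedding)
      (fun i => (F i).map (zip Q n).toEmbedding)
      (fun f => by
        rw [mem_zip, hAF]
        exact exists_congr fun i => (mem_zip (F i) f).symm)
      (fun i => hC n t mul (fun i => (hmul i).1) (fun i => (hmul i).2) _ _ hFree
        (good_zip (hF i)))
    rw [card_map, card_pow] at h2
    exact h2

end Pool.Agent.Results.MP_c82047_co.BoundedWidthSparse
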