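import Pool.Agent.X246.LRS.Final

/-!
# Four triples on seven vertices and approximations of the shadow by matrices of small rank

Let `H` be a triple system on `n` vertices, in which no four triples have at most seven vertices,
and let `A` be the adjacency matrix of its shadow: `A x y = 1` if a triple contains `x` and `y`.
Let `G` be a real matrix with entries of absolute value at most `b ≥ 1` and rank `ρ`, and let `E` be
the sum of `(A x y - G x y)²` over all `x ≠ y`. Then

`|H| ≤ 8 ρ² b⁴ n + 12 ρ b n √E + 72 E`.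

So for every `ε > 0` there is `c > 0` such that, if `|H| ≥ ε n²`, every matrix with entries in
`[-1, 1]` and rank at most `ρ ≤ c √n` differs from `A` by at least `c n² / ρ²`.

A maximal matching in the link of a vertex `z` gives a submatrix `B` of `G`; the entrywise product
of `B` and its transpose has rank at most `ρ²`, its diagonal is large and its other entries are
bounded by errors; now `(tr C)² ≤ rank C * ‖C‖²`.
-/

set_option autoImplicit false

namespace Pool.Agent.Results.MP_c82047_co.LowRankShadow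

open Finset Pool.Agent.X246.LRS

open Classical in
/-- The error of `G` at the pair `x, y`: zero if `x = y`, and otherwise `A x y - G x y`, where
`A x y` is `1` if some member of `H` contains `x` and `y`, and `0` if not. -/
noncomputable def error {V : Type} (H : Finset (Finset V)) (G : Matrix V V ℝ) (x y : V) : ℝ :=
  if x = y then 0 else (if ∃ f ∈ H, x ∈ f ∧ y ∈ f then 1 else 0) - G x y

/-- The sum of the squares of all errors of `G`. -/
noncomputable def Dist {V : Type} [Fintype V] (H : Finset (Finset V)) (G : Matrix V V ℝ) : ℝ :=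
  ∑ x, ∑ y, error H G x y ^ 2

/-- `H` consists of triples, and the union of any four of them has more than seven elements. -/
def SparseTriples {V : Type} [DecidableEq V] (H : Finset (Finset V)) : Prop :=
  (∀ f ∈ H, f.card = 3) ∧ ∀ S ⊆ H, S.card = 4 → 7 < (S.biUnion id).card

theorem dist_eq {V : Type} [Fintype V] [DecidableEq V] (H : Finset (Finset V))
    (G : Matrix V V ℝ) : Dist H G = Err H G := by
  unfold Dist Err
  refine sum_congr rfl fun x _ => sum_congr rfl fun y _ => ?_
  unfold error err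
  by_cases h : x = y
  · rw [if_pos h, if_pos h]
  · rw [if_neg h, if_neg h]
    by_cases hc : ∃ f ∈ H, x ∈ f ∧ y ∈ f
    · rw [if_pos hc, if_pos hc]
    · rw [if_neg hc, if_neg hc]

theorem main (V : Type) [Fintype V] [DecidableEq V] (H : Finset (Finset V))
    (hH : SparseTriples H) (G : Matrix V V ℝ) (b : ℝ) (hb : 1 ≤ b) (hG : ∀ x y, |G x y| ≤ b) :
    (H.card : ℝ) ≤ 8 * (G.rank : ℝ) ^ 2 * b ^ 4 * Fintype.card V +
      12 * G.rank * b * Fintype.card V * √(Dist H G) + 72 * Dist H G := by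
  have h := robust_bound (r := 3) le_rfl hH.1 hH.2 G b hb hG
  rw [dist_eq]
  have hb0 : (0 : ℝ) ≤ b := by linarith
  have h1 : 0 ≤ (G.rank : ℝ) * b * Fintype.card V * √(Err H G) := by positivity
  push_cast at h
  linarith

theorem result :
    -- (1) the bound
    (∀ (V : Type) [Fintype V] [DecidableEq V] (H : Finset (Finset V)), SparseTriples H →
      ∀ (G : Matrix V V ℝ) (b : ℝ), 1 ≤ b → (∀ x y, |G x y| ≤ b) →
        (H.card : ℝ) ≤ 8 * (G.rank : ℝ) ^ 2 * b ^ 4 * Fintype.card V +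
          12 * G.rank * b * Fintype.card V * √(Dist H G) + 72 * Dist H G) ∧
    -- (2) dense systems
    (∀ ε : ℝ, 0 < ε → ∃ c : ℝ, 0 < c ∧
      ∀ (V : Type) [Fintype V] [DecidableEq V] (H : Finset (Finset V)), SparseTriples H →
        ε * (Fintype.card V : ℝ) ^ 2 ≤ H.card →
        ∀ (G : Matrix V V ℝ) (ρ : ℝ), (∀ x y, |G x y| ≤ 1) → (G.rank : ℝ) ≤ ρ → 1 ≤ ρ →
          ρ ≤ c * √(Fintype.card V) → c * (Fintype.card V : ℝ) ^ 2 ≤ ρ ^ 2 * Dist H G) := by
  refine ⟨fun V _ _ H hH G b hb hG => main V H hH G b hb hG, fun ε hε => ?_⟩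
  -- `c` with `24 c² ≤ ε`, `1296 c ≤ ε²`, `216 c ≤ ε`
  set c : ℝ := min (1 / 24) (min (ε / 216) (ε ^ 2 / 1296)) with hc
  have hc0 : 0 < c := by
    rw [hc]
    refine lt_min (by norm_num) (lt_min (by positivity) (by positivity))
  have hc1 : c ≤ 1 / 24 := min_le_left _ _
  have hc2 : c ≤ ε / 216 := (min_le_right _ _).trans (min_le_left _ _)
  have hc3 : c ≤ ε ^ 2 / 1296 := (min_le_right _ _).trans (min_le_right _ _)
  refine ⟨c, hc0, fun V _ _ H hH hd G ρ hG hr hρ hρn => ?_⟩
  have h1 := main V H hH G 1 le_rfl hG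
  set n : ℝ := (Fintype.card V : ℝ) with hn
  have hn0 : 0 ≤ n := Nat.cast_nonneg _
  set E : ℝ := Dist H G with hE
  have hE0 : 0 ≤ E := sum_nonneg fun _ _ => sum_nonneg fun _ _ => sq_nonneg _
  have hs := Real.sq_sqrt hE0
  have hs0 : 0 ≤ √E := Real.sqrt_nonneg _
  set s := √E
  have hR0 : (0 : ℝ) ≤ G.rank := Nat.cast_nonneg _
  by_contra hcon
  push Not at hcon
  -- the first term
  have e1 : 8 * (G.rank : ℝ) ^ 2 * 1 ^ 4 * n ≤ ε / 3 * n ^ 2 := by
    have f1 : (G.rank : ℝ) ^ 2 ≤ c ^ 2 * n := by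
      have f2 : (G.rank : ℝ) ≤ c * √n := hr.trans hρn
      calc (G.rank : ℝ) ^ 2 ≤ (c * √n) ^ 2 := pow_le_pow_left₀ hR0 f2 2
        _ = c ^ 2 * n := by rw [mul_pow, Real.sq_sqrt hn0]
    have f3 : c ^ 2 ≤ ε / 24 := by
      calc c ^ 2 = c * c := by ring
        _ ≤ (1 / 24) * (ε / 216) := mul_le_mul hc1 hc2 hc0.le (by norm_num)
        _ ≤ ε / 24 := by linarith
    calc 8 * (G.rank : ℝ) ^ 2 * 1 ^ 4 * n = 8 * (G.rank : ℝ) ^ 2 * n := by ring
      _ ≤ 8 * (c ^ 2 * n) * n := by gcongr
      _ ≤ 8 * (ε / 24 * n) * n := by gcongr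
      _ = ε / 3 * n ^ 2 := by ring
  -- the second term
  have hρs : (ρ * s) ^ 2 < c * n ^ 2 := by
    rw [mul_pow, hs]
    exact hcon
  have hnpos : 0 < n := by
    rcases hn0.eq_or_lt with h | h
    · rw [← h] at hρs
      have := sq_nonneg (ρ * s)
      norm_num at hρs
      linarith
    · exact h
  have e2 : 12 * (G.rank : ℝ) * 1 * n * s < ε / 3 * n ^ 2 := by
    have f1 : ρ * s < ε / 36 * n := by
      apply lt_of_pow_lt_pow_left₀ 2 (by positivity)
      calc (ρ * s) ^ 2 < c * n ^ 2 := hρs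
        _ ≤ ε ^ 2 / 1296 * n ^ 2 := by gcongr
        _ = (ε / 36 * n) ^ 2 := by ring
    have f2 : (G.rank : ℝ) * s ≤ ρ * s := mul_le_mul_of_nonneg_right hr hs0
    calc 12 * (G.rank : ℝ) * 1 * n * s = 12 * n * ((G.rank : ℝ) * s) := by ring
      _ ≤ 12 * n * (ρ * s) := by gcongr
      _ < 12 * n * (ε / 36 * n) := by gcongr
      _ = ε / 3 * n ^ 2 := by ring
  -- the third term
  have e3 : 72 * E ≤ ε / 3 * n ^ 2 := by
    have f1 : E ≤ ρ ^ 2 * E := by
      have : 1 ≤ ρ ^ 2 := one_le_pow₀ hρ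
      nlinarith
    have f2 : c * n ^ 2 ≤ ε / 216 * n ^ 2 := by gcongr
    nlinarith
  have e4 : ε / 3 * n ^ 2 + ε / 3 * n ^ 2 + ε / 3 * n ^ 2 = ε * n ^ 2 := by ring
  linarith

end Pool.Agent.Results.MP_c82047_co.LowRankShadow
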