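import Pool.Agent.X27.MV.Lin
import Pool.Agent.X27.MV.Iso

/-!
# The Brown–Erdős–Sós problem for triple systems closed under Mal'cev operations

Let `X`, `Y`, `Z` have at most `n` elements each, and let the tripartite triple system
`H ⊆ X × Y × Z` be closed under the componentwise application of three **arbitrary** Mal'cev
operations (`p x y y = x = p y y x`), one on each part: for instance a coset of a subgroup of
`X × Y × Z` for (non-commutative) groups or loops `X`, `Y`, `Z`, or any relation with a Mal'cev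
polymorphism. Assume that no `e` triples of `H` span at most `e + 3` vertices.

* `|H| = O(n^{3/2})` for every `e`, so the conjecture holds in this class for all `k = e + 3`;
* the exponent `3/2` is optimal for `3 ≤ e ≤ 17` and for `e = 19, 20, 21`;
* for `e = 18` and for all `e ≥ 22` even `|H| = O(n)`.

Proof. Two rows of a block which share a symbol are permutations of each other, and contain
`e` cells with `e + 3` rows, columns and symbols; so the entries of large blocks are distinct. This
gives the first bound. The Mal'cev operations extend the triples at the three vertices of a triple to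
a grid, whose triples are the points of a box and whose vertices are the axis-parallel lines; a
`3 × 3 × L` box with a partial layer has `e` points and `e + 3` lines for `e = 18` and `e ≥ 22`; no
`e` points have fewer than `e + 4` lines for the other `e ≥ 3` (counting by layers).
-/

set_option autoImplicit false

namespace Pool.Agent.Results.MP_c82047_co.MaltsevClosed

open Finset Pool.Agent.X27.MV

open Classical in
theorem spanned_diag {X : Type} (T : Finset (X × X × X))
    (hd : ∀ t ∈ T, t.2.1 = t.1 ∧ t.2.2 = t.1) : spanned T = 3 * T.card := by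
  have h1 : (T.image (fun t => t.1)).card = T.card := by
    refine card_image_of_injOn ?_
    rintro ⟨a, b, c⟩ hs ⟨a', b', c'⟩ ht h
    have g := hd _ (mem_coe.mp hs)
    have g' := hd _ (mem_coe.mp ht)
    simp only at g g' h
    rw [g.1, g.2, g'.1, g'.2, h]
  have h2 : T.image (fun t => t.2.1) = T.image (fun t => t.1) :=
    image_congr fun t ht => (hd t (mem_coe.mp ht)).1
  have h3 : T.image (fun t => t.2.2) = T.image (fun t => t.1) :=
    image_congr fun t ht => (hd t (mem_coe.mp ht)).2
  unfold spanned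
  rw [h2, h3, h1]
  ring

theorem diag (e n : ℕ) (he : 2 ≤ e) : ∃ H : Finset (Fin n × Fin n × Fin n),
    Pool.Agent.X27.MV.MaltsevClosed H ∧ Linear H ∧ H.card = n ∧
      ∀ T ⊆ H, T.card = e → e + 3 < spanned T := by
  classical
  refine ⟨univ.image (fun i => (i, i, i)), ?_, ?_, ?_, ?_⟩
  · let m : Fin n → Fin n → Fin n → Fin n := fun a b c => if b = c then a else c
    have hm : ∀ a b, m a b b = a ∧ m b b a = a := by
      intro a b
      refine ⟨by simp [m], ?_⟩
      by_cases h : b = a
      · simp [m, h]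
      · simp [m, h]
    refine ⟨m, m, m, hm, hm, hm, ?_⟩
    intro s hs t ht u hu
    obtain ⟨i, -, rfl⟩ := mem_image.mp hs
    obtain ⟨j, -, rfl⟩ := mem_image.mp ht
    obtain ⟨l, -, rfl⟩ := mem_image.mp hu
    exact mem_image.mpr ⟨_, mem_univ _, rfl⟩
  · refine ⟨?_, ?_, ?_⟩
    · intro x y z z' h1 h2
      obtain ⟨i, -, hi⟩ := mem_image.mp h1
      obtain ⟨j, -, hj⟩ := mem_image.mp h2
      simp only [Prod.mk.injEq] at hi hj
      exact hi.2.2.symm.trans (hi.1.trans (hj.1.symm.trans hj.2.2))
    · intro x y y' z h1 h2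
      obtain ⟨i, -, hi⟩ := mem_image.mp h1
      obtain ⟨j, -, hj⟩ := mem_image.mp h2
      simp only [Prod.mk.injEq] at hi hj
      exact hi.2.1.symm.trans (hi.1.trans (hj.1.symm.trans hj.2.1))
    · intro x x' y z h1 h2
      obtain ⟨i, -, hi⟩ := mem_image.mp h1
      obtain ⟨j, -, hj⟩ := mem_image.mp h2
      simp only [Prod.mk.injEq] at hi hj
      exact hi.1.symm.trans (hi.2.1.trans (hj.2.1.symm.trans hj.1))
  · rw [card_image_of_injective _ (fun i j h => congrArg Prod.fst h)]
    simp
  · intro T hT hc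
    have hd : ∀ t ∈ T, t.2.1 = t.1 ∧ t.2.2 = t.1 := by
      intro t ht
      obtain ⟨i, -, rfl⟩ := mem_image.mp (hT ht)
      exact ⟨rfl, rfl⟩
    have := spanned_diag T hd
    omega

theorem result :
    -- upper bounds
    (∀ (e n : ℕ) (X Y Z : Type) [Fintype X] [Fintype Y] [Fintype Z] (H : Finset (X × Y × Z)),
      Fintype.card X ≤ n → Fintype.card Y ≤ n → Fintype.card Z ≤ n →
      Pool.Agent.X27.MV.MaltsevClosed H → (∀ T ⊆ H, T.card = e → e + 3 < spanned T) →
        H.card ≤ (e - 1) ^ 3 * (2 * n * max (Nat.sqrt n) (e / 2)) ∧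
        (e = 18 ∨ 22 ≤ e → H.card ≤ (e - 1) ^ 3 * ((e / 2 + (e - 1) / 9 + 2) * n)) ∧
        (Linear H → H.card ≤ 2 * n * max (Nat.sqrt n) (e / 2) ∧
          (e = 18 ∨ 22 ≤ e → H.card ≤ (e / 2 + (e - 1) / 9 + 2) * n))) ∧
    -- the exponent `3 / 2` is optimal for `3 ≤ e ≤ 21`, `e ≠ 18`
    (∀ e : ℕ, 3 ≤ e → e ≤ 21 → e ≠ 18 → ∀ k : ℕ,
      ∃ H : Finset ((Fin k × Fin k) × (Fin k × Fin k) × (Fin k × Fin k)),
        Pool.Agent.X27.MV.MaltsevClosed H ∧ Linear H ∧ H.card = k ^ 3 ∧
          ∀ T ⊆ H, T.card = e → e + 3 < spanned T) ∧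
    -- the exponent `1` is optimal for the other `e`
    (∀ e n : ℕ, 2 ≤ e → ∃ H : Finset (Fin n × Fin n × Fin n),
      Pool.Agent.X27.MV.MaltsevClosed H ∧ Linear H ∧ H.card = n ∧
        ∀ T ⊆ H, T.card = e → e + 3 < spanned T) := by
  refine ⟨?_, ?_, fun e n he => diag e n he⟩
  · intro e n X Y Z _ _ _ H hX hY hZ h hfree
    obtain ⟨H', hsub, h', hl', hle⟩ := reduce e h hfree
    have hf' : ∀ T ⊆ H', T.card = e → e + 3 < spanned T := fun T hT => hfree T (hT.trans hsub)
    exact ⟨hle.trans (Nat.mul_le_mul_left _ (linear e n hX hY hZ h' hl' hf')),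
      fun he => hle.trans (Nat.mul_le_mul_left _ (linear2 e n he hX hY hZ h' hl' hf')),
      fun hl => ⟨linear e n hX hY hZ h hl hfree, fun he => linear2 e n he hX hY hZ h hl hfree⟩⟩
  · intro e h3 h21 h18 k
    exact ⟨cube k, cube_closed k, cube_linear k, cube_card k, cube_free21 k e h3 h21 h18⟩

end Pool.Agent.Results.MP_c82047_co.MaltsevClosed
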