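import Pool.Agent.X20.Tr.Orders
import Pool.Agent.Results.MP_c82047_co.AlmostAllOrders

/-!
# Triple systems with groups whose order is one of the numbers `⌊α n ^ c⌋`

From Mathlib: `dimH E`: the Hausdorff dimension; `⌊x⌋₊`: the integer part; `Finset.Icc 1 N`: the integers from `1` to
`N`. From the team's `AlmostAllOrders` (its definition is used as it is): `SparseTriple K C m s B`: for every finite set `V`,
every finite group `G` of order at most `s m` acting on `V` such that every orbit has `m` elements or one element, every set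
`H` of triples in `V` which is invariant under `G`, all `δ > 0` and `k ≥ K(δ)` with `C(δ, k) B ≤ m`, `w` being the number of
vertices in orbits with `m` elements: if more than `C(δ, k) w (B w / m) ^ (1 + δ)` triples of `H` contain such a vertex, or
some such vertex lies in more than `C(δ, k) (B w / m) ^ (1 + δ)` triples of `H`, then some `k` vertices span at least
`k + ⌊k / K(δ)⌋` triples of `H`.
-/

set_option autoImplicit false

namespace Pool.Agent.Results.MP_c82047_co.SparseOrders

open Finset Filter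
open Pool.Agent.X20.Tr
open Pool.Agent.Results.MP_c82047_co.AlmostAllOrders (SparseTriple)

lemma sparse_mono (K : ℝ → ℕ) (C : ℝ → ℕ → ℕ) (m s : ℕ) (B B' : ℝ) (hB : 0 < B) (hBB : B ≤ B')
    (h : SparseTriple K C m s B) : SparseTriple K C m s B' := by
  intro V G _ _ _ _ _ h1 h2 H h4 h5 δ hδ k hk hCm w hw h6
  refine h V G h1 h2 H h4 h5 δ hδ k hk
    (le_trans (mul_le_mul_of_nonneg_left hBB (Nat.cast_nonneg _)) hCm) w hw ?_
  have key : (B * w / m) ^ (1 + δ) ≤ (B' * w / m) ^ (1 + δ) := by
    apply Real.rpow_le_rpow (by positivity) _ (by linarith)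
    gcongr
  rcases h6 with h6 | ⟨b, hb1, hb2⟩
  · exact Or.inl (lt_of_le_of_lt (mul_le_mul_of_nonneg_left key (by positivity)) h6)
  · exact Or.inr ⟨b, hb1, lt_of_le_of_lt (mul_le_mul_of_nonneg_left key (by positivity)) hb2⟩

open Classical in
/-- There are functions `K(δ) ≥ 1` and `C(δ, k)` such that for every real `c > 1` there are `κ > 0` and a set `E` of
real numbers of Hausdorff dimension at most `1 - κ` such that for every `η > 0` there is `M` such that for every real
`α > 0` outside `E` and ALL `s ≥ 1`: for all but at most `η N` of the `n ≤ N` (`N` large), with `m = ⌊α n ^ c⌋`, the statement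
`SparseTriple K C m s B` with `B = (s log m) ^ M` holds: it is about ALL triple systems and ALL finite groups of order at
most `s m` acting by automorphisms such that every orbit on the vertices has `m` elements or one element. -/
theorem result : ∃ (K : ℝ → ℕ) (C : ℝ → ℕ → ℕ), (∀ δ : ℝ, 0 < δ → 1 ≤ K δ) ∧
    ∀ c : ℝ, 1 < c → ∃ κ : ℝ, 0 < κ ∧ κ < 1 ∧ ∃ E : Set ℝ, dimH E ≤ ENNReal.ofReal (1 - κ) ∧
      ∀ η : ℝ, 0 < η → ∃ M : ℕ, ∀ α : ℝ, 0 < α → α ∉ E →
        ∀ s : ℕ, 1 ≤ s → ∃ N₀ : ℕ, ∀ N : ℕ, N₀ ≤ N →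
          (((Icc 1 N).filter (fun n : ℕ => ¬ SparseTriple K C ⌊α * (n : ℝ) ^ c⌋₊ s
            ((s * Real.log (⌊α * (n : ℝ) ^ c⌋₊ : ℕ)) ^ M))).card : ℝ) ≤ η * N := by
  obtain ⟨K, C, hK, hin⟩ := AlmostAllOrders.result
  refine ⟨K, C, hK, fun c hc => ?_⟩
  obtain ⟨κ, hκ0, hκ1, H⟩ := orders c hc
  obtain ⟨E, hE, hh⟩ := H (SparseTriple K C) (sparse_mono K C) hin
  exact ⟨κ, hκ0, hκ1, E, hE, hh⟩

end Pool.Agent.Results.MP_c82047_co.SparseOrders
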